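import Pool.Agent.H110R3.Urn.Stmts

set_option autoImplicit false

/-! Project H110-URN (helper110): the task `TaskLip`. -/

namespace Pool.Agent.H22R3.Urn

open Pool.Agent.H110R3.Urn Filter Topology

noncomputable section

variable {m : ℕ} (G : SimpleGraph (Fin m)) [DecidableRel G.Adj]

/-- the open set where everything is smooth -/
def UU (α : ℝ) : Set (Fin m → ℝ) := {x | ∀ i j, G.Adj i j → 0 < (x i) ^ α + (x j) ^ α}

theorem isOpen_UU {α : ℝ} (hα : 0 ≤ α) : IsOpen (UU G α) := by
  have h : UU G α = ⋂ i, ⋂ j, {x : Fin m → ℝ | G.Adj i j → 0 < (x i) ^ α + (x j) ^ α} := by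
    ext x; simp [UU]
  rw [h]
  refine isOpen_iInter_of_finite fun i => isOpen_iInter_of_finite fun j => ?_
  by_cases hij : G.Adj i j
  · simp only [hij, true_imp_iff]
    refine isOpen_lt continuous_const ?_
    exact ((Real.continuous_rpow_const hα).comp (continuous_apply i)).add
      ((Real.continuous_rpow_const hα).comp (continuous_apply j))
  · simp [hij]

theorem Rg_sub {α : ℝ} (hNE : 0 < NE G) : Rg G ⊆ UU G α := by
  intro x hx i j hij
  obtain ⟨h0, h1, h2⟩ := hx
  have h3 := h2 i j hij
  have h4 : (0 : ℝ) < 1 / (2 * (NE G : ℝ)) := by positivity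
  rcases (h0 i).lt_or_eq with hi | hi
  · have := Real.rpow_pos_of_pos hi α
    have := Real.rpow_nonneg (h0 j) α
    linarith
  · have hj : 0 < x j := by linarith
    have := Real.rpow_pos_of_pos hj α
    have := Real.rpow_nonneg (h0 i) α
    linarith

theorem contDiff_coord_rpow {p : ℝ} (hp : 1 ≤ p) (i : Fin m) :
    ContDiff ℝ 1 (fun x : Fin m → ℝ => (x i) ^ p) := by
  have h1 : ContDiff ℝ ((1 : ℕ) : ℕ∞) (fun t : ℝ => t ^ p) :=
    Real.contDiff_rpow_const_of_le (by simpa using hp)
  have h2 : ContDiff ℝ 1 (fun t : ℝ => t ^ p) := by simpa using h1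
  exact h2.comp (contDiff_apply ℝ ℝ i)

theorem contDiffOn_ell {α : ℝ} (hα : 2 ≤ α) (i : Fin m) :
    ContDiffOn ℝ 1 (fun x => ell G α x i) (UU G α) := by
  unfold ell
  refine ContDiffOn.sum fun j _ => ?_
  by_cases hij : G.Adj i j
  · simp only [hij, if_true]
    refine ContDiffOn.div (contDiff_coord_rpow (by linarith) i).contDiffOn
      ((contDiff_coord_rpow (by linarith) i).add (contDiff_coord_rpow (by linarith) j)).contDiffOn ?_
    intro x hx
    exact (hx i j hij).ne'
  · simp only [hij, if_false]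
    exact contDiffOn_const

theorem contDiffOn_gg {α : ℝ} (hα : 2 ≤ α) : ContDiffOn ℝ 1 (fun x => gg G α x) (UU G α) := by
  unfold gg
  refine ContDiffOn.sum fun i _ => ?_
  refine ContDiffOn.mul (contDiff_apply ℝ ℝ i).contDiffOn ?_
  exact ((contDiffOn_ell G hα i).sub contDiffOn_const).pow 2

theorem continuousOn_LL {α : ℝ} (hα : 2 ≤ α) : ContinuousOn (fun x => LL G α x) (UU G α) := by
  unfold LL hh
  refine continuousOn_finsetSum _ fun e _ => ?_
  refine ContinuousOn.mul continuousOn_const ?_
  refine ContinuousOn.log ?_ ?_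
  · exact (((Real.continuous_rpow_const (by linarith)).comp (continuous_apply e.1.1)).add
      ((Real.continuous_rpow_const (by linarith)).comp (continuous_apply e.1.2))).continuousOn
  · intro x hx
    exact (hx _ _ e.2.2).ne'

theorem isCompact_Rg : IsCompact (Rg G) := by
  have hsub : Rg G ⊆ Set.Icc (fun _ => (0 : ℝ)) (fun _ => 1) := by
    intro x hx
    refine ⟨fun i => hx.1 i, fun i => ?_⟩
    rw [← hx.2.1]
    exact Finset.single_le_sum (fun j _ => hx.1 j) (Finset.mem_univ i)
  refine (isCompact_Icc (a := fun _ : Fin m => (0 : ℝ)) (b := fun _ => 1)).of_isClosed_subset ?_ hsub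
  have h : Rg G = (⋂ i, {x : Fin m → ℝ | 0 ≤ x i}) ∩ ({x : Fin m → ℝ | ∑ i, x i = 1} ∩
      ⋂ i, ⋂ j, {x : Fin m → ℝ | G.Adj i j → 1 / (2 * (NE G : ℝ)) ≤ x i + x j}) := by
    ext x; simp [Rg]
  rw [h]
  refine IsClosed.inter (isClosed_iInter fun i => isClosed_le continuous_const (continuous_apply i)) ?_
  refine IsClosed.inter (isClosed_eq (continuous_finsetSum _ fun i _ => continuous_apply i)
    continuous_const) ?_
  refine isClosed_iInter fun i => isClosed_iInter fun j => ?_
  by_cases hij : G.Adj i j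
  · simp only [hij, true_imp_iff]
    exact isClosed_le continuous_const ((continuous_apply i).add (continuous_apply j))
  · simp [hij]

theorem convex_Rg : Convex ℝ (Rg G) := by
  intro x hx y hy a b ha hb hab
  refine ⟨fun i => ?_, ?_, fun i j hij => ?_⟩
  · have := hx.1 i
    have := hy.1 i
    simp only [Pi.add_apply, Pi.smul_apply, smul_eq_mul]
    positivity
  · simp only [Pi.add_apply, Pi.smul_apply, smul_eq_mul, Finset.sum_add_distrib, ← Finset.mul_sum,
      hx.2.1, hy.2.1]
    linarith
  · have h1 := hx.2.2 i j hij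
    have h2 := hy.2.2 i j hij
    simp only [Pi.add_apply, Pi.smul_apply, smul_eq_mul]
    have : 1 / (2 * (NE G : ℝ)) = a * (1 / (2 * (NE G : ℝ))) + b * (1 / (2 * (NE G : ℝ))) := by
      rw [← add_mul, hab, one_mul]
    rw [this]
    nlinarith

theorem norm_le_sum (x : Fin m → ℝ) : ‖x‖ ≤ ∑ i, |x i| := by
  rw [pi_norm_le_iff_of_nonneg (Finset.sum_nonneg fun i _ => abs_nonneg _)]
  intro i
  rw [Real.norm_eq_abs]
  exact Finset.single_le_sum (f := fun j => |x j|) (fun j _ => abs_nonneg _) (Finset.mem_univ i)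

theorem taskLip : TaskLip := by
  intro m G _ hm hNE α hα
  have hK := isCompact_Rg G
  have hU := isOpen_UU G (α := α) (by linarith)
  have hsub := Rg_sub G (α := α) hNE
  obtain ⟨C1, hC1⟩ := hK.exists_bound_of_continuousOn ((continuousOn_LL G hα).mono hsub)
  have hgg := contDiffOn_gg G hα
  have hfd : ContinuousOn (fun x => fderiv ℝ (fun x => gg G α x) x) (UU G α) :=
    hgg.continuousOn_fderiv_of_isOpen hU le_rfl
  obtain ⟨C2, hC2⟩ := hK.exists_bound_of_continuousOn (hfd.mono hsub)
  refine ⟨max (max C1 C2) 1, by positivity, ?_, ?_, ?_, ?_, hK⟩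
  · intro x hx
    exact (hC1 x hx).trans ((le_max_left _ _).trans (le_max_left _ _))
  · intro x hx
    exact Finset.sum_nonneg fun i _ => mul_nonneg (hx.1 i) (sq_nonneg _)
  · intro x hx x' hx'
    have h1 := (convex_Rg G).norm_image_sub_le_of_norm_hasFDerivWithin_le
      (f := fun x => gg G α x) (f' := fun x => fderiv ℝ (fun x => gg G α x) x) (C := C2)
      (fun y hy => ((hgg.differentiableOn one_ne_zero).differentiableAt
        (hU.mem_nhds (hsub hy))).hasFDerivAt.hasFDerivWithinAt) hC2 hx' hx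
    rw [Real.norm_eq_abs] at h1
    have h2 : ‖x - x'‖ ≤ ∑ i, |x i - x' i| := norm_le_sum (x - x')
    have h3 : 0 ≤ ‖x - x'‖ := norm_nonneg _
    calc |gg G α x - gg G α x'| ≤ C2 * ‖x - x'‖ := h1
      _ ≤ max (max C1 C2) 1 * ‖x - x'‖ := by
        apply mul_le_mul_of_nonneg_right _ h3
        exact (le_max_right _ _).trans (le_max_left _ _)
      _ ≤ _ := mul_le_mul_of_nonneg_left h2 (by positivity)
  · intro x hx h0 i
    have h1 : x i * (ell G α x i - NE G) ^ 2 = 0 :=
      (Finset.sum_eq_zero_iff_of_nonneg (fun i _ => mul_nonneg (hx.1 i) (sq_nonneg _))).1 h0 i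
        (Finset.mem_univ i)
    have hα0 : α ≠ 0 := by linarith
    have h2 : fF G α x i = x i * ell G α x i := by
      unfold fF ell
      rw [Finset.mul_sum]
      refine Finset.sum_congr rfl fun j _ => ?_
      by_cases hij : G.Adj i j
      · simp only [hij, if_true]
        unfold pp
        rw [← mul_div_assoc]
        congr 1
        rcases (hx.1 i).lt_or_eq with hi | hi
        · rw [Real.rpow_sub_one hi.ne']
          field_simp
        · rw [← hi, Real.zero_rpow hα0, zero_mul]
      · simp [hij]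
    rcases mul_eq_zero.1 h1 with h3 | h3
    · rw [h2, h3]; ring
    · have h4 : ell G α x i = NE G := by
        have := pow_eq_zero_iff (two_ne_zero) |>.1 h3
        linarith
      rw [h2, h4]; ring

end

end Pool.Agent.H22R3.Urn
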